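import Pool.Agent.helper11.CFL.Spec

set_option linter.all false
set_option autoImplicit false

/-!
Row cf:DT (MP_95f808): the determinant of the weighted Laplacian plus the all ones matrix is at
least the weight of any spanning tree.
-/

namespace Pool.Agent.helper13.CFL

open Finset Matrix
open Pool.Agent.helper11.CFL

section

variable {V E : Type} [Fintype V] [DecidableEq V] [Nonempty V] [Fintype E] [DecidableEq E]
variable (src tgt : E → V) (c : E → ℝ)

/-- the weighted Laplacian of the edges in `S` plus the all ones matrix -/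
def MS (S : Finset E) : Matrix V V ℝ :=
  fun u v => ∑ e ∈ S, c e * inc src tgt e u * inc src tgt e v + 1

theorem dot_inc (x : V → ℝ) (e : E) : ∑ v, x v * inc src tgt e v = x (src e) - x (tgt e) := by
  simp [inc, mul_sub, Finset.sum_sub_distrib]

theorem quad (S : Finset E) (x : V → ℝ) :
    x ⬝ᵥ (MS src tgt c S *ᵥ x) =
      ∑ e ∈ S, c e * (x (src e) - x (tgt e)) ^ 2 + (∑ v, x v) ^ 2 := by
  have h1 : ∀ u, (MS src tgt c S *ᵥ x) u =
      ∑ e ∈ S, c e * inc src tgt e u * (x (src e) - x (tgt e)) + ∑ v, x v := by
    intro u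
    simp only [mulVec, dotProduct, MS, add_mul, one_mul, Finset.sum_add_distrib, Finset.sum_mul]
    rw [Finset.sum_comm]
    congr 1
    refine Finset.sum_congr rfl fun e _ => ?_
    rw [← dot_inc src tgt x e, Finset.mul_sum]
    refine Finset.sum_congr rfl fun v _ => ?_
    ring
  simp only [dotProduct, h1, mul_add, Finset.sum_add_distrib, Finset.mul_sum]
  rw [Finset.sum_comm]
  congr 1
  · refine Finset.sum_congr rfl fun e _ => ?_
    have : ∀ u, x u * (c e * inc src tgt e u * (x (src e) - x (tgt e))) =
        (c e * (x (src e) - x (tgt e))) * (x u * inc src tgt e u) := by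
      intro u
      ring
    simp only [this]
    rw [← Finset.mul_sum, dot_inc]
    ring
  · rw [sq, Finset.sum_mul_sum]

theorem posDef_MS (T S : Finset E) (hT : Spans src tgt T) (hTS : T ⊆ S) (hc : ∀ e, 0 < c e) :
    (MS src tgt c S).PosDef := by
  refine PosDef.of_dotProduct_mulVec_pos ?_ ?_
  · ext u v
    simp only [conjTranspose_apply, MS, star_trivial]
    congr 1
    refine Finset.sum_congr rfl fun e _ => ?_
    ring
  · intro x hx
    rw [star_trivial, quad]
    by_contra hcon
    push Not at hcon
    have hnn : ∀ e ∈ S, 0 ≤ c e * (x (src e) - x (tgt e)) ^ 2 := fun e _ =>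
      mul_nonneg (hc e).le (sq_nonneg _)
    have h1 : 0 ≤ ∑ e ∈ S, c e * (x (src e) - x (tgt e)) ^ 2 := Finset.sum_nonneg hnn
    have h2 : 0 ≤ (∑ v, x v) ^ 2 := sq_nonneg _
    have h3 : ∑ e ∈ S, c e * (x (src e) - x (tgt e)) ^ 2 = 0 := by linarith
    have h4 : (∑ v, x v) ^ 2 = 0 := by linarith
    have h5 : ∀ e ∈ T, x (src e) = x (tgt e) := by
      intro e he
      have h6 := (Finset.sum_eq_zero_iff_of_nonneg hnn).1 h3 e (hTS he)
      have h7 : (x (src e) - x (tgt e)) ^ 2 = 0 := by
        rcases mul_eq_zero.1 h6 with h | h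
        · exact absurd h (hc e).ne'
        · exact h
      have h8 : x (src e) - x (tgt e) = 0 := by simpa using h7
      linarith
    have h9 := hT.2 x h5
    have h10 : ∑ v, x v = 0 := by simpa using h4
    obtain ⟨v0⟩ := ‹Nonempty V›
    have h11 : ∑ v, x v = Fintype.card V * x v0 := by
      rw [Finset.sum_congr rfl (fun v _ => h9 v v0)]
      simp
    have h12 : x v0 = 0 := by
      rw [h11] at h10
      rcases mul_eq_zero.1 h10 with h | h
      · have : (0 : ℝ) < Fintype.card V := by exact_mod_cast Fintype.card_pos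
        linarith
      · exact h
    exact hx (funext fun v => by rw [h9 v v0, h12]; rfl)

theorem det_insert (T S : Finset E) (hT : Spans src tgt T) (hTS : T ⊆ S) (hc : ∀ e, 0 < c e)
    (e : E) (he : e ∉ S) : (MS src tgt c S).det ≤ (MS src tgt c (insert e S)).det := by
  have hP := posDef_MS src tgt c T S hT hTS hc
  have hdet := hP.det_pos
  have h1 : MS src tgt c (insert e S) = MS src tgt c S +
      replicateCol Unit (fun u => c e * inc src tgt e u) * replicateRow Unit (inc src tgt e) := by
    ext u v
    simp only [MS, Finset.sum_insert he, Matrix.add_apply, Matrix.mul_apply, replicateCol_apply,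
      replicateRow_apply, Finset.univ_unique, Finset.sum_singleton]
    ring
  rw [h1, det_add_replicateCol_mul_replicateRow hdet.ne'.isUnit]
  have h2 : (1 + replicateRow Unit (inc src tgt e) * (MS src tgt c S)⁻¹ *
      replicateCol Unit (fun u => c e * inc src tgt e u)).det =
      1 + c e * (inc src tgt e ⬝ᵥ ((MS src tgt c S)⁻¹ *ᵥ inc src tgt e)) := by
    rw [det_unique]
    simp only [Matrix.add_apply, Matrix.one_apply_eq, Matrix.mul_assoc]
    congr 1
    simp only [Matrix.mul_apply, replicateRow_apply, replicateCol_apply, dotProduct, mulVec]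
    rw [Finset.mul_sum]
    refine Finset.sum_congr rfl fun u _ => ?_
    rw [Finset.mul_sum, Finset.mul_sum, Finset.mul_sum]
    refine Finset.sum_congr rfl fun v _ => ?_
    ring
  rw [h2]
  have h3 : 0 ≤ inc src tgt e ⬝ᵥ ((MS src tgt c S)⁻¹ *ᵥ inc src tgt e) := by
    have := hP.inv.posSemidef.dotProduct_mulVec_nonneg (inc src tgt e)
    simpa using this
  have h4 : 0 ≤ c e * (inc src tgt e ⬝ᵥ ((MS src tgt c S)⁻¹ *ᵥ inc src tgt e)) :=
    mul_nonneg (hc e).le h3
  nlinarith

theorem det_mono (T : Finset E) (hT : Spans src tgt T) (hc : ∀ e, 0 < c e) (R : Finset E) :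
    (MS src tgt c T).det ≤ (MS src tgt c (T ∪ R)).det := by
  induction R using Finset.induction_on with
  | empty => simp
  | insert e R he ih =>
    refine ih.trans ?_
    rw [Finset.union_insert]
    by_cases h : e ∈ T ∪ R
    · rw [Finset.insert_eq_self.2 h]
    · exact det_insert src tgt c T (T ∪ R) hT Finset.subset_union_left hc e h

/-- integer incidence vectors of the tree and the all ones vector -/
def BI (T : Finset E) (v : V) : Option T → ℤ
  | none => 1
  | some e => (if src e.1 = v then 1 else 0) - (if tgt e.1 = v then 1 else 0)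

def BR (T : Finset E) (v : V) : Option T → ℝ
  | none => 1
  | some e => inc src tgt e.1 v

def DR (T : Finset E) : Option T → ℝ
  | none => 1
  | some e => c e.1

theorem det_tree (T : Finset E) (hT : Spans src tgt T) (hc : ∀ e, 0 < c e) :
    ∏ e ∈ T, c e ≤ (MS src tgt c T).det := by
  have hcard : Fintype.card V = Fintype.card (Option T) := by
    rw [Fintype.card_option, Fintype.card_coe]
    exact hT.1.symm
  let ε : V ≃ Option T := Fintype.equivOfCardEq hcard
  let A : Matrix V V ℝ := fun v u => BR src tgt T v (ε u)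
  let AI : Matrix V V ℤ := fun v u => BI src tgt T v (ε u)
  let D : Matrix V V ℝ := Matrix.diagonal fun u => DR c T (ε u)
  have hA : A = AI.map (Int.castRingHom ℝ) := by
    ext v u
    simp only [A, AI, Matrix.map_apply]
    cases ε u with
    | none => simp [BR, BI]
    | some e => simp [BR, BI, inc]
  have hprod : MS src tgt c T = A * D * Aᵀ := by
    ext u v
    have hmd : ∀ u x, (A * D) u x = BR src tgt T u (ε x) * DR c T (ε x) := by
      intro u x
      exact Matrix.mul_diagonal _ _ _ _
    have hR : (A * D * Aᵀ) u v =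
        ∑ x, BR src tgt T u (ε x) * DR c T (ε x) * BR src tgt T v (ε x) := by
      rw [Matrix.mul_apply]
      refine Finset.sum_congr rfl fun x _ => ?_
      rw [hmd]
      rfl
    rw [hR, Equiv.sum_comp ε (fun w => BR src tgt T u w * DR c T w * BR src tgt T v w),
      Fintype.sum_option]
    show ∑ e ∈ T, c e * inc src tgt e u * inc src tgt e v + 1 = _
    simp only [BR, DR]
    rw [Finset.sum_coe_sort T (fun e => inc src tgt e u * c e * inc src tgt e v), add_comm]
    simp only [mul_one, one_mul]
    congr 1
    refine Finset.sum_congr rfl fun e _ => ?_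
    ring
  have hD : D.det = ∏ e ∈ T, c e := by
    simp only [D, Matrix.det_diagonal]
    rw [Equiv.prod_comp ε (fun w => DR c T w), Fintype.prod_option]
    simp only [DR, one_mul]
    rw [Finset.prod_coe_sort T (fun e => c e)]
  have hA0 : A.det ≠ 0 := by
    intro h0
    obtain ⟨x, hx, hxA⟩ := Matrix.exists_vecMul_eq_zero_iff.2 h0
    have h1 : ∀ w : Option T, ∑ v, x v * BR src tgt T v w = 0 := by
      intro w
      have := congrFun hxA (ε.symm w)
      simpa [Matrix.vecMul, dotProduct, A] using this
    have h2 : ∀ e ∈ T, x (src e) = x (tgt e) := by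
      intro e he
      have := h1 (some ⟨e, he⟩)
      simp only [BR] at this
      rw [dot_inc] at this
      linarith
    have h3 := hT.2 x h2
    have h4 : ∑ v, x v = 0 := by simpa [BR] using h1 none
    obtain ⟨v0⟩ := ‹Nonempty V›
    have h5 : ∑ v, x v = Fintype.card V * x v0 := by
      rw [Finset.sum_congr rfl (fun v _ => h3 v v0)]
      simp
    have h6 : x v0 = 0 := by
      rw [h5] at h4
      rcases mul_eq_zero.1 h4 with h | h
      · have : (0 : ℝ) < Fintype.card V := by exact_mod_cast Fintype.card_pos
        linarith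
      · exact h
    exact hx (funext fun v => by rw [h3 v v0, h6]; rfl)
  have hAI : A.det = ((AI.det : ℤ) : ℝ) := by
    rw [hA]
    exact (RingHom.map_det (Int.castRingHom ℝ) AI).symm
  have h1 : (1 : ℝ) ≤ A.det ^ 2 := by
    rw [hAI] at hA0 ⊢
    have hz : AI.det ≠ 0 := by
      intro h
      apply hA0
      rw [h]
      simp
    have : (1 : ℤ) ≤ AI.det ^ 2 := by
      have := sq_pos_of_ne_zero hz
      omega
    exact_mod_cast this
  rw [hprod, Matrix.det_mul, Matrix.det_mul, Matrix.det_transpose, hD]
  have hp : 0 < ∏ e ∈ T, c e := Finset.prod_pos fun e _ => hc e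
  calc ∏ e ∈ T, c e = 1 * ∏ e ∈ T, c e := (one_mul _).symm
    _ ≤ A.det ^ 2 * ∏ e ∈ T, c e := mul_le_mul_of_nonneg_right h1 hp.le
    _ = _ := by ring

end

end Pool.Agent.helper13.CFL

namespace Pool.Agent.helper11.CFL

theorem DT : DT_stmt := by
  intro V E _ _ _ _ _ src tgt T hT c hc
  refine (Pool.Agent.helper13.CFL.det_tree src tgt c T hT hc).trans ?_
  have h := Pool.Agent.helper13.CFL.det_mono src tgt c T hT hc Finset.univ
  have h2 : T ∪ Finset.univ = Finset.univ := by simp
  rw [h2] at h
  exact h

end Pool.Agent.helper11.CFL
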